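import Pool.Agent.PolD.Greedy

/-! ITERATES (helper35): the greedy construction of groups of indices `t` with all differences of elements of
different groups outside of a set `P`; abstract form. -/

set_option autoImplicit false

namespace Pool.Agent.ItA

open Finset Pool.Agent.PolD

/-- the greedy step: `r` groups of indices, one more group of class `c` -/
theorem step1 (P : ℤ → Prop) (r : ℕ) (T : ℕ → Finset ℤ) (Q : ℕ) (hQ : 0 < Q)
    (w : ℕ → ℤ) (c : ℤ) (hT : ∀ i < r, (T i).Nonempty) (hcl : ∀ i < r, ∀ t ∈ T i, t ≡ w i [ZMOD Q])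
    (ε : ℝ) (hε : 0 < ε) (hε1 : ε ≤ 1)
    (hbad : ∀ H : ℕ, ∃ (x : ℤ) (X : ℕ), 0 ≤ x ∧ H ≤ X ∧
      ∑ i ∈ range r, (cnt (fun a => a ≡ c - w i [ZMOD Q] ∧ P a) x X : ℝ) ≤ (1 - ε) * (X / Q))
    (n : ℕ) (hn : 0 < n) :
    ∃ Y : Finset ℤ, Y.card = n ∧ (∀ y ∈ Y, 0 ≤ y) ∧ (∀ y ∈ Y, y ≡ c [ZMOD Q]) ∧
      ∃ T' : ℕ → Finset ℤ, ∀ i < r, T' i ⊆ T i ∧ ε / 2 * (T i).card ≤ ((T' i).card : ℝ) ∧
        ∀ t ∈ T' i, ∀ y ∈ Y, t < y ∧ ¬ P (y - t) := by
  classical
  let B : ℤ → ℤ → Prop := fun t y => y ≤ t ∨ P (y - t)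
  let S : Finset (Σ _ : ℕ, ℤ) := (range r).sigma T
  obtain ⟨C, hC⟩ : ∃ C : ℝ, C = ∑ i ∈ range r, ∑ t ∈ T i, (2 * (t.natAbs : ℝ)) := ⟨_, rfl⟩
  have hC0 : 0 ≤ C := by rw [hC]; positivity
  have hQr : (0 : ℝ) < Q := by exact_mod_cast hQ
  obtain ⟨K, hK⟩ : ∃ K : ℕ, K = (S.powerset).card := ⟨_, rfl⟩
  obtain ⟨H, hH⟩ := exists_nat_gt ((K * n + 1 + C) * (2 * Q / ε))
  obtain ⟨x, X, hx0, hHX, hcnt⟩ := hbad H
  set I : Finset ℤ := (Ioc x (x + X)).filter fun y => y ≡ c [ZMOD Q] with hI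
  have hIcard : (X : ℝ) / Q - 1 ≤ I.card := by
    have := cnt_class Q hQ c x X
    rwa [cnt_eq] at this
  let W : ℤ → ℝ := fun y => ∑ i ∈ range r, (((T i).filter fun t => B t y).card : ℝ) / (T i).card
  have hcardT : ∀ i < r, (0 : ℝ) < (T i).card := fun i hi => by exact_mod_cast (hT i hi).card_pos
  -- the average
  have hone : ∀ i < r, ∀ t ∈ T i, ((I.filter fun y => B t y).card : ℝ) ≤
      (cnt (fun a => a ≡ c - w i [ZMOD Q] ∧ P a) x X : ℝ) + (2 * (t.natAbs : ℝ)) := by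
    intro i hi t ht
    have h1 : (I.filter fun y => B t y).card ≤
        cnt (fun y => y ≤ t ∨ ((y - t) ≡ c - w i [ZMOD Q] ∧ P (y - t))) x X := by
      rw [cnt_eq]
      refine Finset.card_le_card fun y hy => ?_
      rw [hI, Finset.mem_filter, Finset.mem_filter] at hy
      rw [Finset.mem_filter]
      refine ⟨hy.1.1, ?_⟩
      rcases hy.2 with h2 | h2
      · exact Or.inl h2
      · exact Or.inr ⟨Int.ModEq.sub hy.1.2 (hcl i hi t ht), h2⟩
    have h2 := h1.trans (cnt_or _ _ _ _)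
    have h3 : cnt (fun y => y ≤ t) x X ≤ t.natAbs := by
      rw [cnt_eq]
      have h5 : (Ioc x (x + X)).filter (fun y => y ≤ t) ⊆ Ioc 0 t := by
        intro y hy
        rw [Finset.mem_filter, Finset.mem_Ioc] at hy
        rw [Finset.mem_Ioc]
        exact ⟨by omega, hy.2⟩
      refine (Finset.card_le_card h5).trans ?_
      rw [Int.card_Ioc]
      omega
    have h4 := cnt_shift (fun a => a ≡ c - w i [ZMOD Q] ∧ P a) x X t
    have h5 : (I.filter fun y => B t y).card ≤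
        cnt (fun a => a ≡ c - w i [ZMOD Q] ∧ P a) x X + (2 * t.natAbs) := by
      refine h2.trans ?_
      omega
    exact_mod_cast h5
  have hsumW : ∑ y ∈ I, W y ≤ (1 - ε) * (X / Q) + C := by
    have h1 : ∑ y ∈ I, W y = ∑ i ∈ range r, (∑ t ∈ T i, ((I.filter fun y => B t y).card : ℝ)) / (T i).card := by
      show ∑ y ∈ I, ∑ i ∈ range r, (((T i).filter fun t => B t y).card : ℝ) / (T i).card = _
      rw [Finset.sum_comm]
      refine Finset.sum_congr rfl fun i _ => ?_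
      rw [← Finset.sum_div]
      congr 1
      have h2 : ∀ y ∈ I, (((T i).filter fun t => B t y).card : ℝ) = ∑ t ∈ T i, if B t y then 1 else 0 := by
        intro y _
        rw [Finset.card_filter]
        push_cast
        rfl
      rw [Finset.sum_congr rfl h2, Finset.sum_comm]
      refine Finset.sum_congr rfl fun t _ => ?_
      rw [Finset.card_filter]
      push_cast
      rfl
    rw [h1, hC]
    refine (Finset.sum_le_sum (g := fun i =>
      (cnt (fun a => a ≡ c - w i [ZMOD Q] ∧ P a) x X : ℝ) +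
        ∑ t ∈ T i, (2 * (t.natAbs : ℝ))) fun i hi => ?_).trans ?_
    · rw [Finset.mem_range] at hi
      rw [div_le_iff₀ (hcardT i hi)]
      have h3 := Finset.sum_le_sum fun t ht => hone i hi t ht
      refine h3.trans ?_
      rw [Finset.sum_add_distrib, Finset.sum_const, nsmul_eq_mul, add_mul]
      have h4 : (1 : ℝ) ≤ (T i).card := by exact_mod_cast (hT i hi).card_pos
      have h5 : (0 : ℝ) ≤ ∑ t ∈ T i, (2 * (t.natAbs : ℝ)) := by positivity
      have h6 := mul_le_mul_of_nonneg_left h4 h5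
      rw [mul_one] at h6
      have h7 : (0 : ℝ) ≤ (cnt (fun a => a ≡ c - w i [ZMOD Q] ∧ P a) x X : ℝ) := Nat.cast_nonneg _
      rw [mul_comm ((T i).card : ℝ)]
      linarith
    · rw [Finset.sum_add_distrib]
      exact add_le_add hcnt le_rfl
  -- many good `y`
  set J : Finset ℤ := I.filter fun y => W y ≤ 1 - ε / 2 with hJ
  have hW0 : ∀ y, 0 ≤ W y := fun y => Finset.sum_nonneg fun i _ => by positivity
  have hJcard : (K * n : ℝ) ≤ J.card := by
    have h1 : (1 - ε / 2) * (I.card - J.card : ℝ) ≤ ∑ y ∈ I, W y := by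
      have h2 : (I.card - J.card : ℝ) = ((I.filter fun y => ¬ W y ≤ 1 - ε / 2).card : ℝ) := by
        have h3 := Finset.card_filter_add_card_filter_not (s := I) (fun y => W y ≤ 1 - ε / 2)
        rw [← hJ] at h3
        have h4 : (J.card : ℝ) + ((I.filter fun y => ¬ W y ≤ 1 - ε / 2).card : ℝ) = I.card := by exact_mod_cast h3
        linarith
      rw [h2]
      calc (1 - ε / 2) * ((I.filter fun y => ¬ W y ≤ 1 - ε / 2).card : ℝ)
          = ∑ y ∈ I.filter (fun y => ¬ W y ≤ 1 - ε / 2), (1 - ε / 2) := by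
            rw [Finset.sum_const, nsmul_eq_mul, mul_comm]
        _ ≤ ∑ y ∈ I.filter (fun y => ¬ W y ≤ 1 - ε / 2), W y :=
            Finset.sum_le_sum fun y hy => (not_le.1 (Finset.mem_filter.1 hy).2).le
        _ ≤ ∑ y ∈ I, W y := Finset.sum_le_sum_of_subset_of_nonneg (Finset.filter_subset _ _) fun y _ _ => hW0 y
    have h2 : (H : ℝ) ≤ X := by exact_mod_cast hHX
    have h3 : (K * n + 1 + C) * (2 * Q / ε) < X := hH.trans_le h2
    have h4 : (K * n + 1 + C) < (X : ℝ) / Q * (ε / 2) := by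
      have h5 : (X : ℝ) / Q * (ε / 2) = X / (2 * Q / ε) := by field_simp
      rw [h5, lt_div_iff₀ (by positivity)]
      exact h3
    have h6 : (0 : ℝ) ≤ J.card := Nat.cast_nonneg _
    nlinarith
  -- pigeonhole
  have hpig : (S.powerset).card * n ≤ J.card := by
    rw [← hK]
    exact_mod_cast hJcard
  let pat : ℤ → Finset (Σ _ : ℕ, ℤ) := fun y => S.filter fun p => ¬ B p.2 y
  have hmaps : ∀ y ∈ J, pat y ∈ S.powerset := by
    intro y hy
    rw [Finset.mem_powerset]
    exact Finset.filter_subset _ _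
  obtain ⟨U, hρS, hfib⟩ := Finset.exists_le_card_fiber_of_mul_le_card_of_maps_to hmaps
    ⟨∅, Finset.empty_mem_powerset _⟩ hpig
  obtain ⟨Y, hYsub, hYcard⟩ := Finset.exists_subset_card_eq hfib
  have hY : ∀ y ∈ Y, (x < y ∧ y ≤ x + X) ∧ y ≡ c [ZMOD Q] ∧ W y ≤ 1 - ε / 2 ∧
      (S.filter fun p => ¬ B p.2 y) = U := by
    intro y hy
    have h1 := hYsub hy
    rw [Finset.mem_filter, hJ, Finset.mem_filter, hI, Finset.mem_filter, Finset.mem_Ioc] at h1
    exact ⟨h1.1.1.1, h1.1.1.2, h1.1.2, h1.2⟩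
  refine ⟨Y, hYcard, fun y hy => by have := (hY y hy).1.1; omega, fun y hy => (hY y hy).2.1,
    fun i => (T i).filter fun t => (⟨i, t⟩ : Σ _ : ℕ, ℤ) ∈ U, ?_⟩
  intro i hi
  refine ⟨Finset.filter_subset _ _, ?_, ?_⟩
  · obtain ⟨y, hy⟩ : Y.Nonempty := by rw [← Finset.card_pos, hYcard]; exact hn
    have h1 := hY y hy
    have h2 : ((T i).filter fun t => (⟨i, t⟩ : Σ _ : ℕ, ℤ) ∈ U) = (T i).filter fun t => ¬ B t y := by
      refine Finset.filter_congr fun t ht => ?_
      rw [← h1.2.2.2, Finset.mem_filter]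
      constructor
      · intro h; exact h.2
      · intro h; exact ⟨Finset.mem_sigma.2 ⟨Finset.mem_range.2 hi, ht⟩, h⟩
    show ε / 2 * ((T i).card : ℝ) ≤ (((T i).filter fun t => (⟨i, t⟩ : Σ _ : ℕ, ℤ) ∈ U).card : ℝ)
    rw [h2]
    have h3 := Finset.card_filter_add_card_filter_not (s := T i) (fun t => B t y)
    have h4 : (((T i).filter fun t => B t y).card : ℝ) / (T i).card ≤ 1 - ε / 2 := by
      refine le_trans ?_ h1.2.2.1
      exact Finset.single_le_sum (f := fun i => (((T i).filter fun t => B t y).card : ℝ) / (T i).card)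
        (fun i _ => by positivity) (Finset.mem_range.2 hi)
    rw [div_le_iff₀ (hcardT i hi)] at h4
    have h5 : (((T i).filter fun t => B t y).card : ℝ) + (((T i).filter fun t => ¬ B t y).card : ℝ) =
      (T i).card := by exact_mod_cast h3
    linarith
  · intro t ht y hy
    have h1 := hY y hy
    rw [Finset.mem_filter, ← h1.2.2.2, Finset.mem_filter] at ht
    have h2 : ¬ B t y := ht.2.2
    exact ⟨not_le.1 fun h => h2 (Or.inl h), fun h => h2 (Or.inr h)⟩

/-- `r` groups of at least `n` indices, all differences between different groups outside of `P` -/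
structure Chn (P : ℤ → Prop) (Q : ℕ) (u : ℕ → ℤ) (r n : ℕ) (T : ℕ → Finset ℤ) : Prop where
  size : ∀ i < r, n ≤ (T i).card
  nonneg : ∀ i < r, ∀ t ∈ T i, 0 ≤ t
  cls : ∀ i < r, ∀ t ∈ T i, t ≡ u i [ZMOD Q]
  bad : ∀ i j, i < j → j < r → ∀ t ∈ T i, ∀ t' ∈ T j, t < t' ∧ ¬ P (t' - t)

/-- arbitrarily large groups with the pattern `u` -/
def Ex (P : ℤ → Prop) (Q : ℕ) (u : ℕ → ℤ) (r : ℕ) : Prop := ∀ n : ℕ, ∃ T, Chn P Q u r n T

theorem ex_one (P : ℤ → Prop) (Q : ℕ) (hQ : 0 < Q) (u : ℕ → ℤ) (hu : 0 ≤ u 0) : Ex P Q u 1 := by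
  intro n
  have hQz : (Q : ℤ) ≠ 0 := by exact_mod_cast hQ.ne'
  refine ⟨fun _ => (range n).image fun k : ℕ => u 0 + (Q : ℤ) * k, ?_, ?_, ?_, ?_⟩
  · intro i hi
    show n ≤ ((range n).image fun k : ℕ => u 0 + (Q : ℤ) * k).card
    rw [Finset.card_image_of_injective, Finset.card_range]
    intro a b hab
    have h1 : (Q : ℤ) * a = Q * b := by
      have : u 0 + (Q : ℤ) * a = u 0 + (Q : ℤ) * b := hab
      linarith
    exact_mod_cast mul_left_cancel₀ hQz h1
  · intro i hi t ht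
    obtain ⟨k, _, rfl⟩ := Finset.mem_image.1 ht
    positivity
  · intro i hi t ht
    obtain ⟨k, _, rfl⟩ := Finset.mem_image.1 ht
    have h0 : i = 0 := by omega
    subst h0
    have h1 : (Q : ℤ) ∣ (Q : ℤ) * k := Dvd.dvd.mul_right dvd_rfl _
    exact (Int.modEq_iff_dvd.2 (by
      have : u 0 - (u 0 + (Q : ℤ) * k) = -((Q : ℤ) * k) := by ring
      rw [this]
      exact (dvd_neg).2 h1))
  · intro i j hij hj
    omega

/-- the greedy step for `Ex` -/
theorem ex_succ (P : ℤ → Prop) (Q : ℕ) (hQ : 0 < Q) (u : ℕ → ℤ) (r : ℕ) (hr : Ex P Q u r) (c : ℤ)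
    (ε : ℝ) (hε : 0 < ε) (hε1 : ε ≤ 1)
    (hbad : ∀ H : ℕ, ∃ (x : ℤ) (X : ℕ), 0 ≤ x ∧ H ≤ X ∧
      ∑ i ∈ range r, (cnt (fun a => a ≡ c - u i [ZMOD Q] ∧ P a) x X : ℝ) ≤ (1 - ε) * (X / Q)) :
    Ex P Q (fun i => if i < r then u i else c) (r + 1) := by
  have key : ∀ n : ℕ, 0 < n → ∃ T, Chn P Q (fun i => if i < r then u i else c) (r + 1) n T := by
    intro n hn
    obtain ⟨N, hN⟩ := exists_nat_gt (2 * n / ε)
    have hnN : (n : ℝ) ≤ ε / 2 * N := by
      rw [div_lt_iff₀ hε] at hN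
      linarith
    have hNpos : 0 < N := by
      rcases Nat.eq_zero_or_pos N with h | h
      · rw [h] at hnN
        have : (0 : ℝ) < n := by exact_mod_cast hn
        simp only [Nat.cast_zero, mul_zero] at hnN
        linarith
      · exact h
    obtain ⟨T, hT⟩ := hr N
    obtain ⟨Y, hYcard, hY0, hYc, T', hT'⟩ := step1 P r T Q hQ u c
      (fun i hi => by rw [← Finset.card_pos]; exact lt_of_lt_of_le hNpos (hT.size i hi))
      hT.cls ε hε hε1 hbad n hn
    refine ⟨fun i => if i < r then T' i else Y, ?_, ?_, ?_, ?_⟩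
    · intro i hi
      by_cases hir : i < r
      · simp only [hir, if_true]
        have h1 := (hT' i hir).2.1
        have h2 : (N : ℝ) ≤ (T i).card := by exact_mod_cast hT.size i hir
        have h3 : (n : ℝ) ≤ (T' i).card := by
          refine hnN.trans (le_trans ?_ h1)
          gcongr
        exact_mod_cast h3
      · simp only [hir, if_false]
        rw [hYcard]
    · intro i hi t ht
      by_cases hir : i < r
      · simp only [hir, if_true] at ht
        exact hT.nonneg i hir t ((hT' i hir).1 ht)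
      · simp only [hir, if_false] at ht
        exact hY0 t ht
    · intro i hi t ht
      by_cases hir : i < r
      · simp only [hir, if_true] at ht ⊢
        exact hT.cls i hir t ((hT' i hir).1 ht)
      · simp only [hir, if_false] at ht ⊢
        exact hYc t ht
    · intro i j hij hj t ht t' ht'
      have hir : i < r := by omega
      simp only [hir, if_true] at ht
      by_cases hjr : j < r
      · simp only [hjr, if_true] at ht'
        exact hT.bad i j hij hjr t ((hT' i hir).1 ht) t' ((hT' j hjr).1 ht')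
      · simp only [hjr, if_false] at ht'
        exact (hT' i hir).2.2 t ht t' ht'
  intro n
  obtain ⟨T, hT⟩ := key (n + 1) n.succ_pos
  exact ⟨T, fun i hi => (Nat.le_succ n).trans (hT.size i hi), hT.nonneg, hT.cls, hT.bad⟩

/-- if a group of class `c` cannot be added, there are many elements of `P` -/
theorem dens_of_not (P : ℤ → Prop) (Q : ℕ) (hQ : 0 < Q) (u : ℕ → ℤ) (r : ℕ) (hr : Ex P Q u r) (c : ℤ)
    (hno : ¬ Ex P Q (fun i => if i < r then u i else c) (r + 1)) (ε : ℝ) (hε : 0 < ε) :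
    ∃ H : ℕ, ∀ (x : ℤ) (X : ℕ), 0 ≤ x → H ≤ X →
      (1 - ε) * (X / Q) ≤ ∑ i ∈ range r, (cnt (fun a => a ≡ c - u i [ZMOD Q] ∧ P a) x X : ℝ) := by
  by_contra hcon
  push Not at hcon
  apply hno
  refine ex_succ P Q hQ u r hr c (min ε 1) (lt_min hε one_pos) (min_le_right _ _) fun H => ?_
  obtain ⟨x, X, hx, hX, h⟩ := hcon H
  refine ⟨x, X, hx, hX, h.le.trans ?_⟩
  have h1 : (0 : ℝ) ≤ (X : ℝ) / Q := by positivity
  have h2 := min_le_left ε 1
  nlinarith

end Pool.Agent.ItA
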