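import Pool.Agent.ItA.Third
import Pool.Agent.PolD.Greedy2

/-! ITERATES (helper35): four groups of iterates of an affine map, from the theorem on four groups of forms. -/

set_option autoImplicit false

namespace Pool.Agent.ItA

open Finset Pool.Agent.PolD Pool.Agent.SL

/-- the affine map `y ↦ a + y d` -/
def af (a : ℤ) (d : ℕ) (y : ℤ) : ℤ := a + y * d

theorem af_iter (a : ℤ) (d m : ℕ) (y : ℤ) : (af a d)^[m] y = d ^ m * y + (af a d)^[m] 0 := by
  induction m with
  | zero => simp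
  | succ m ih =>
    rw [Function.iterate_succ_apply', Function.iterate_succ_apply', ih]
    unfold af
    ring

theorem af_zero (a : ℤ) (d m : ℕ) : (af a d)^[m] 0 = a * ((∑ k ∈ range m, d ^ k : ℕ) : ℤ) := by
  induction m with
  | zero => simp
  | succ m ih =>
    rw [Function.iterate_succ_apply', ih, Finset.sum_range_succ']
    unfold af
    push_cast
    rw [mul_add, Finset.mul_sum, Finset.mul_sum, Finset.sum_mul]
    have : ∀ k ∈ range m, a * (d : ℤ) ^ (k + 1) = a * (d : ℤ) ^ k * d := fun k _ => by ring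
    rw [Finset.sum_congr rfl this]
    ring

theorem af_zero_ne (a : ℤ) (ha : a ≠ 0) (d m : ℕ) (hm : 1 ≤ m) : (af a d)^[m] 0 ≠ 0 := by
  rw [af_zero]
  refine mul_ne_zero ha ?_
  have h1 : 0 < ∑ k ∈ range m, d ^ k := by
    obtain ⟨m', rfl⟩ : ∃ m', m = m' + 1 := ⟨m - 1, by omega⟩
    rw [Finset.sum_range_succ', pow_zero]
    omega
  exact_mod_cast h1.ne'

/-- the `m`-th iterate maps infinitely many primes to primes -/
def GdI (a : ℤ) (d m : ℕ) : Prop :=
  {q : ℕ | q.Prime ∧ ∃ p : ℕ, p.Prime ∧ (p : ℤ) = (af a d)^[m] q}.Infinite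

theorem int_to_nat (p : ℕ) (hp : 0 < p) (z : ℤ) (N : ℕ) : ∃ n : ℕ, (p : ℤ) ∣ ((n : ℤ) + N) - z := by
  have hpz : (0 : ℤ) < p := by exact_mod_cast hp
  refine ⟨((z - N) % p).toNat, ?_⟩
  have h1 : (0 : ℤ) ≤ (z - N) % p := Int.emod_nonneg _ hpz.ne'
  rw [Int.toNat_of_nonneg h1]
  have h2 : (z - N) % p + N - z = -((z - N) - (z - N) % p) := by ring
  rw [h2, dvd_neg]
  exact Int.dvd_self_sub_emod

theorem af_cong (a : ℤ) (d m p : ℕ) (y z : ℤ) (h : (p : ℤ) ∣ y - z) :
    (p : ℤ) ∣ (af a d)^[m] y - (af a d)^[m] z := by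
  rw [af_iter a d m y, af_iter a d m z]
  have h1 : (d : ℤ) ^ m * y + (af a d)^[m] 0 - (d ^ m * z + (af a d)^[m] 0) = d ^ m * (y - z) := by ring
  rw [h1]
  exact Dvd.dvd.mul_left h _

/-- admissibility: for every prime there is a class in which no iterate of index `τ ∈ I` is divisible by `p` -/
theorem adm (a : ℤ) (d : ℕ) (hgcd : Int.gcd a d = 1) (h2 : 2 ∣ a * d) (p : ℕ) (hp : p.Prime)
    (I : Finset ℕ) (hI : p ≠ 2 → ∃ e : ℤ, ∀ t ∈ I, ¬ (p : ℤ) ∣ (t : ℤ) - e) :
    ∃ z : ℤ, ∀ t ∈ I, ¬ (p : ℤ) ∣ (af a d)^[t] z := by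
  have hpp : Prime (p : ℤ) := Nat.prime_iff_prime_int.mp hp
  have hcop : ¬ ((p : ℤ) ∣ a ∧ (p : ℤ) ∣ d) := by
    rintro ⟨h3, h4⟩
    have h5 : p ∣ Int.gcd a d := Int.dvd_gcd h3 h4
    rw [hgcd] at h5
    exact hp.one_lt.ne' (Nat.dvd_one.mp h5)
  by_cases hd : (p : ℤ) ∣ d
  · have ha : ¬ (p : ℤ) ∣ a := fun h => hcop ⟨h, hd⟩
    refine ⟨1, fun t _ ht => ?_⟩
    rcases Nat.eq_zero_or_pos t with h0 | h0
    · subst h0
      rw [Function.iterate_zero, id_eq] at ht
      exact hpp.not_unit (isUnit_of_dvd_one ht)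
    · obtain ⟨t', rfl⟩ : ∃ t', t = t' + 1 := ⟨t - 1, by omega⟩
      rw [Function.iterate_succ_apply'] at ht
      unfold af at ht
      exact ha ((dvd_add_left (Dvd.dvd.mul_left hd _)).mp ht)
  by_cases ha : (p : ℤ) ∣ a
  · refine ⟨1, fun t _ ht => ?_⟩
    rw [af_iter, af_zero, mul_one] at ht
    have h3 := (dvd_add_left (Dvd.dvd.mul_right ha _)).mp ht
    exact hd (hpp.dvd_of_dvd_pow h3)
  by_cases hd1 : (p : ℤ) ∣ (d : ℤ) - 1
  · have hp2 : p ≠ 2 := by
      rintro rfl
      rcases Int.prime_two.dvd_or_dvd h2 with h | h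
      · exact ha h
      · exact hd h
    obtain ⟨e, he⟩ := hI hp2
    have h3 : ∀ (m : ℕ) (z : ℤ), (p : ℤ) ∣ (af a d)^[m] z - (z + m * a) := by
      intro m z
      induction m with
      | zero => simp
      | succ m ih =>
        rw [Function.iterate_succ_apply']
        have h4 : af a d ((af a d)^[m] z) - (z + ((m + 1 : ℕ) : ℤ) * a) =
            ((af a d)^[m] z - (z + m * a)) * d + ((d : ℤ) - 1) * (z + m * a) := by
          unfold af
          push_cast
          ring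
        rw [h4]
        exact dvd_add (Dvd.dvd.mul_right ih _) (Dvd.dvd.mul_right hd1 _)
    refine ⟨-(e * a), fun t ht hdv => ?_⟩
    have h4 := dvd_sub hdv (h3 t (-(e * a)))
    have h5 : (af a d)^[t] (-(e * a)) - ((af a d)^[t] (-(e * a)) - (-(e * a) + t * a)) =
        ((t : ℤ) - e) * a := by ring
    rw [h5] at h4
    rcases hpp.dvd_or_dvd h4 with h6 | h6
    · exact he t ht h6
    · exact ha h6
  · -- a fixed point
    have hc : IsCoprime (1 - (d : ℤ)) (p : ℤ) := by
      refine ((hpp.coprime_iff_not_dvd).2 fun h => hd1 ?_).symm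
      have : (d : ℤ) - 1 = -(1 - (d : ℤ)) := by ring
      rw [this, dvd_neg]
      exact h
    obtain ⟨u, v, huv⟩ := hc
    -- z = u a : (1 - d) z ≡ a
    have h3 : ∀ m : ℕ, (p : ℤ) ∣ (af a d)^[m] (u * a) - u * a := by
      intro m
      induction m with
      | zero => simp
      | succ m ih =>
        rw [Function.iterate_succ_apply']
        have h4 : af a d ((af a d)^[m] (u * a)) - u * a =
            ((af a d)^[m] (u * a) - u * a) * d + (v * a) * p := by
          unfold af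
          linear_combination a * (-huv)
        rw [h4]
        exact dvd_add (Dvd.dvd.mul_right ih _) (Dvd.intro_left _ rfl)
    refine ⟨u * a, fun t _ ht => ?_⟩
    have h4 := dvd_sub ht (h3 t)
    rw [sub_sub_cancel] at h4
    rcases hpp.dvd_or_dvd h4 with h5 | h5
    · have h6 : (p : ℤ) ∣ 1 := by
        rw [← huv]
        exact dvd_add (Dvd.dvd.mul_right h5 _) (Dvd.intro_left _ rfl)
      exact hpp.not_unit (isUnit_of_dvd_one h6)
    · exact ha h5

/-- no four groups of iterates -/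
theorem no_four (K : ℕ) (hK : 1 ≤ K) (hD : DHLG 4 (4 * K)) (a : ℤ) (ha : a ≠ 0) (d : ℕ) (hd : 0 < d)
    (hgcd : Int.gcd a d = 1) (h2 : 2 ∣ a * d) (u : ℕ → ℤ) (hu : ∃ e : ℤ, ∀ i < 4, ¬ u i ≡ e [ZMOD 3]) :
    ¬ Ex (fun z => GdI a d z.toNat) (3 * (4 * K).factorial) u 4 := by
  classical
  intro hE
  obtain ⟨T, hT⟩ := hE K
  have hen : ∀ g, ∃ f : ℕ → ℤ, g < 4 → (∀ i < K, f i ∈ T g) ∧ ∀ i < K, ∀ j < K, f i = f j → i = j := by
    intro g
    by_cases hg : g < 4
    · obtain ⟨f, hf⟩ := enum (T g) K (hT.size g hg)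
      exact ⟨f, fun _ => hf⟩
    · exact ⟨fun _ => 0, fun h => absurd h hg⟩
  choose F hF using hen
  let e : Fin (4 * K) → Fin 4 × Fin K := fun i => finProdFinEquiv.symm i
  have hein : Function.Injective e := finProdFinEquiv.symm.injective
  let G : Fin (4 * K) → Fin 4 := fun i => (e i).1
  let τ : Fin (4 * K) → ℕ := fun i => (F (e i).1 (e i).2).toNat
  have hmem : ∀ i, F (e i).1 (e i).2 ∈ T (e i).1 := fun i =>
    (hF (e i).1 (e i).1.isLt).1 (e i).2 (e i).2.isLt
  have hτ : ∀ i, (τ i : ℤ) = F (e i).1 (e i).2 := fun i =>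
    Int.toNat_of_nonneg (hT.nonneg _ (e i).1.isLt _ (hmem i))
  have hlt : ∀ i j, G i < G j → τ i < τ j ∧ ¬ GdI a d (τ j - τ i) := by
    intro i j hij
    have h3 := hT.bad (e i).1 (e j).1 hij (e j).1.isLt _ (hmem i) _ (hmem j)
    rw [← hτ i, ← hτ j] at h3
    have h4 : τ i < τ j := by exact_mod_cast h3.1
    refine ⟨h4, ?_⟩
    have h5 : ((τ j : ℤ) - (τ i : ℤ)).toNat = τ j - τ i := by omega
    rw [← h5]
    exact h3.2
  have hinj : ∀ i j, i ≠ j → τ i ≠ τ j := by
    intro i j hij h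
    rcases lt_trichotomy (G i) (G j) with h3 | h3 | h3
    · exact (hlt i j h3).1.ne h
    · have h4 : F (e i).1 (e i).2 = F (e j).1 (e j).2 := by rw [← hτ i, ← hτ j, h]
      have h5 : (e i).1 = (e j).1 := h3
      rw [h5] at h4
      have h6 := (hF (e j).1 (e j).1.isLt).2 (e i).2 (e i).2.isLt (e j).2 (e j).2.isLt h4
      exact hij (hein (Prod.ext h5 (Fin.ext h6)))
    · exact (hlt j i h3).1.ne' h
  -- the constants
  obtain ⟨N0, hN0⟩ : ∃ N0 : ℕ, ∀ i, 0 ≤ (d : ℤ) ^ τ i * N0 + (af a d)^[τ i] 0 := by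
    refine ⟨∑ i, ((af a d)^[τ i] 0).natAbs, fun i => ?_⟩
    have h3 : ((af a d)^[τ i] 0).natAbs ≤ ∑ i, ((af a d)^[τ i] 0).natAbs :=
      Finset.single_le_sum (f := fun i => ((af a d)^[τ i] 0).natAbs) (fun _ _ => Nat.zero_le _)
        (Finset.mem_univ i)
    have h4 : (((af a d)^[τ i] 0).natAbs : ℤ) ≤ ((∑ i, ((af a d)^[τ i] 0).natAbs : ℕ) : ℤ) := by
      exact_mod_cast h3
    have h5 : (1 : ℤ) ≤ (d : ℤ) ^ τ i := one_le_pow₀ (by exact_mod_cast hd)
    have h6 : -(((af a d)^[τ i] 0).natAbs : ℤ) ≤ (af a d)^[τ i] 0 := by omega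
    have h7 : (0 : ℤ) ≤ ((∑ i, ((af a d)^[τ i] 0).natAbs : ℕ) : ℤ) := by positivity
    nlinarith
  let s : Fin (4 * K) → ℕ := fun i => d ^ τ i
  let h : Fin (4 * K) → ℕ := fun i => ((d : ℤ) ^ τ i * N0 + (af a d)^[τ i] 0).toNat
  have hh : ∀ i, (h i : ℤ) = (d : ℤ) ^ τ i * N0 + (af a d)^[τ i] 0 := fun i =>
    Int.toNat_of_nonneg (hN0 i)
  have hval : ∀ i (n : ℕ), ((s i * n + h i : ℕ) : ℤ) = (af a d)^[τ i] ((n : ℤ) + N0) := by
    intro i n
    rw [af_iter a d (τ i) ((n : ℤ) + N0)]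
    push_cast
    rw [hh i]
    simp only [s]
    push_cast
    ring
  -- the bounds
  have hB : ∀ m : ℕ, ∃ B : ℕ, ¬ GdI a d m → ∀ q : ℕ, q.Prime →
      (∃ p : ℕ, p.Prime ∧ (p : ℤ) = (af a d)^[m] q) → q < B := by
    intro m
    by_cases hm : GdI a d m
    · exact ⟨0, fun h => absurd hm h⟩
    · have hfin : {q : ℕ | q.Prime ∧ ∃ p : ℕ, p.Prime ∧ (p : ℤ) = (af a d)^[m] q}.Finite :=
        Set.not_infinite.mp hm
      obtain ⟨B, hB⟩ := hfin.bddAbove
      exact ⟨B + 1, fun _ q hq hp => Nat.lt_succ_of_le (hB ⟨hq, hp⟩)⟩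
  choose B hB using hB
  have hadm : ∀ p : ℕ, p.Prime → ∃ n : ℕ, ∀ i, ¬ p ∣ s i * n + h i := by
    intro p hp
    obtain ⟨z, hz⟩ := adm a d hgcd h2 p hp (Finset.univ.image τ) (by
      intro hp2
      by_cases hpK : p ≤ 4 * K
      · -- constant classes
        have hpQ : (p : ℤ) ∣ ((3 * (4 * K).factorial : ℕ) : ℤ) := by
          have : p ∣ 3 * (4 * K).factorial := Dvd.dvd.mul_left ((Nat.Prime.dvd_factorial hp).2 hpK) _
          exact_mod_cast this
        have hcl : ∀ i, (p : ℤ) ∣ u (e i).1 - τ i := by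
          intro i
          rw [hτ i]
          exact hpQ.trans (hT.cls _ (e i).1.isLt _ (hmem i)).dvd
        obtain ⟨c, hc⟩ : ∃ c : ℤ, ∀ g < 4, ¬ (p : ℤ) ∣ u g - c := by
          by_cases hp3 : p = 3
          · subst hp3
            obtain ⟨c, hc⟩ := hu
            refine ⟨c, fun g hg hdv => hc g hg ?_⟩
            exact (Int.modEq_iff_dvd.2 (by
              have h6 : c - u g = -(u g - c) := by ring
              rw [h6, dvd_neg]
              exact_mod_cast hdv))
          · have hp5 : 4 < p := by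
              have h6 := hp.two_le
              have h7 : p ≠ 4 := by rintro rfl; exact absurd hp (by norm_num)
              omega
            obtain ⟨n, hn⟩ := big (range 4) p hp (by rw [Finset.card_range]; exact hp5)
              (fun _ => 1) (fun g => - u g) (fun _ _ h => hp.one_lt.ne' (Nat.dvd_one.mp h))
            refine ⟨n, fun g hg hdv => hn g (Finset.mem_range.2 hg) ?_⟩
            have h6 : ((1 : ℕ) : ℤ) * n + -u g = -(u g - n) := by push_cast; ring
            rw [h6, dvd_neg]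
            exact hdv
        refine ⟨c, fun t ht hdv => ?_⟩
        obtain ⟨i, _, rfl⟩ := Finset.mem_image.1 ht
        refine hc (e i).1 (e i).1.isLt ?_
        have h6 := dvd_add (hcl i) hdv
        have h7 : u (e i).1 - (τ i : ℤ) + ((τ i : ℤ) - c) = u (e i).1 - c := by ring
        rwa [h7] at h6
      · obtain ⟨n, hn⟩ := big (Finset.univ : Finset (Fin (4 * K))) p hp
          (by rw [Finset.card_univ, Fintype.card_fin]; omega)
          (fun _ => 1) (fun i => - (τ i : ℤ)) (fun _ _ h => hp.one_lt.ne' (Nat.dvd_one.mp h))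
        refine ⟨n, fun t ht hdv => ?_⟩
        obtain ⟨i, _, rfl⟩ := Finset.mem_image.1 ht
        refine hn i (Finset.mem_univ i) ?_
        have h6 : ((1 : ℕ) : ℤ) * n + -(τ i : ℤ) = -((τ i : ℤ) - n) := by push_cast; ring
        rw [h6, dvd_neg]
        exact hdv)
    obtain ⟨n, hn⟩ := int_to_nat p hp.pos z N0
    refine ⟨n, fun i hdv => hz (τ i) (Finset.mem_image_of_mem τ (Finset.mem_univ i)) ?_⟩
    have h3 : (p : ℤ) ∣ (af a d)^[τ i] ((n : ℤ) + N0) := by
      rw [← hval i n]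
      exact_mod_cast hdv
    have h4 := af_cong a d (τ i) p _ _ hn
    have h5 := dvd_sub h3 h4
    rwa [sub_sub_cancel] at h5
  obtain ⟨n, hn, i, j, hij, hpi, hpj⟩ := hD s h G (by
      intro g
      have h3 : (univ.filter fun i => G i = g).card ≤ (univ : Finset (Fin K)).card := by
        refine Finset.card_le_card_of_injOn (fun i => (e i).2) (fun _ _ => Finset.mem_coe.2 (Finset.mem_univ _)) ?_
        intro x hx y hy hxy
        rw [Finset.mem_coe, Finset.mem_filter] at hx hy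
        exact hein (Prod.ext (hx.2.trans hy.2.symm) hxy)
      rw [Finset.card_univ, Fintype.card_fin] at h3
      omega) (fun i => pow_pos hd _) (by
      intro i j hij heq
      have h3 : ((s i * h j : ℕ) : ℤ) = ((s j * h i : ℕ) : ℤ) := by exact_mod_cast heq
      push_cast at h3
      rw [hh i, hh j] at h3
      simp only [s] at h3
      push_cast at h3
      have key : ∀ x y : ℕ, x < y →
          (d : ℤ) ^ x * ((d : ℤ) ^ y * N0 + (af a d)^[y] 0) ≠
            (d : ℤ) ^ y * ((d : ℤ) ^ x * N0 + (af a d)^[x] 0) := by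
        intro x y hxy h4
        obtain ⟨m, rfl⟩ : ∃ m, y = m + x := ⟨y - x, by omega⟩
        rw [Function.iterate_add_apply, af_iter a d m ((af a d)^[x] 0)] at h4
        have h5 : (d : ℤ) ^ x * (af a d)^[m] 0 = 0 := by
          rw [pow_add] at h4
          linear_combination h4
        rcases mul_eq_zero.1 h5 with h6 | h6
        · have : (d : ℤ) ≠ 0 := by exact_mod_cast hd.ne'
          exact pow_ne_zero x this h6
        · exact af_zero_ne a ha d m (by omega) h6
      rcases lt_or_gt_of_ne (hinj i j hij) with h4 | h4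
      · exact key _ _ h4 h3
      · exact key _ _ h4 h3.symm) hadm (∑ m ∈ range (∑ i, τ i + 1), B m)
  -- the contradiction
  have main : ∀ i j, G i < G j → (s i * n + h i).Prime → (s j * n + h j).Prime → False := by
    intro i j hlt' hpi hpj
    obtain ⟨h3, h4⟩ := hlt i j hlt'
    have h5 := hB (τ j - τ i) h4 (s i * n + h i) hpi ⟨s j * n + h j, hpj, by
      rw [hval j n, hval i n, ← Function.iterate_add_apply, Nat.sub_add_cancel h3.le]⟩
    have h6 : B (τ j - τ i) ≤ ∑ m ∈ range (∑ i, τ i + 1), B m := by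
      refine Finset.single_le_sum (f := B) (fun _ _ => Nat.zero_le _) ?_
      rw [Finset.mem_range]
      have h7 : τ j ≤ ∑ i, τ i := Finset.single_le_sum (f := τ) (fun _ _ => Nat.zero_le _) (Finset.mem_univ j)
      omega
    have h7 : n ≤ s i * n + h i := by
      have h8 : 1 ≤ s i := pow_pos hd _
      nlinarith
    omega
  rcases lt_or_gt_of_ne hij with h3 | h3
  · exact main i j h3 hpi hpj
  · exact main j i h3 hpj hpi

end Pool.Agent.ItA
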