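import Pool.Agent.ItA.Greedy

/-! ITERATES (helper35): if no four groups of indices (classes modulo 3 of the indices in at most two classes) have
all differences outside of `P`, the lower Banach density of `P` is at least `1/3`. -/

set_option autoImplicit false

namespace Pool.Agent.ItA

open Finset Pool.Agent.PolD

theorem cnt_congr {P R : ℤ → Prop} (h : ∀ a, P a ↔ R a) (x : ℤ) (X : ℕ) : cnt P x X = cnt R x X :=
  le_antisymm (cnt_mono (fun a => (h a).1) x X) (cnt_mono (fun a => (h a).2) x X)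

/-- the classes modulo `Q` inside a class modulo 3 -/
theorem cnt_classes (P : ℤ → Prop) (Q : ℕ) (hQ : 0 < Q) (h3 : 3 ∣ Q) (e v : ℤ) (x : ℤ) (X : ℕ) :
    ∑ c ∈ (range Q).filter (fun c : ℕ => (c : ℤ) ≡ e [ZMOD 3]),
      (cnt (fun a => a ≡ (c : ℤ) - v [ZMOD Q] ∧ P a) x X : ℝ) ≤
      (cnt (fun a => a ≡ e - v [ZMOD 3] ∧ P a) x X : ℝ) := by
  classical
  set A : Finset ℤ := (Ioc x (x + X)).filter fun a => a ≡ e - v [ZMOD 3] ∧ P a with hA
  have hQz : (0 : ℤ) < Q := by exact_mod_cast hQ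
  have h3z : (3 : ℤ) ∣ (Q : ℤ) := by exact_mod_cast h3
  have h1 : ∀ c ∈ (range Q).filter (fun c : ℕ => (c : ℤ) ≡ e [ZMOD 3]),
      cnt (fun a => a ≡ (c : ℤ) - v [ZMOD Q] ∧ P a) x X ≤
        (A.filter fun a => ((a + v) % Q).toNat = c).card := by
    intro c hc
    rw [Finset.mem_filter, Finset.mem_range] at hc
    rw [cnt_eq]
    refine Finset.card_le_card fun a ha => ?_
    rw [Finset.mem_filter] at ha
    rw [Finset.mem_filter, hA, Finset.mem_filter]
    have h2 : a + v ≡ c [ZMOD Q] := by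
      have := ha.2.1.add_right v
      rwa [sub_add_cancel] at this
    refine ⟨⟨ha.1, ?_, ha.2.2⟩, ?_⟩
    · exact (ha.2.1.of_dvd h3z).trans (hc.2.sub_right v)
    · have h4 : (a + v) % Q = (c : ℤ) % Q := h2
      have h5 : (c : ℤ) % Q = c := Int.emod_eq_of_lt (by positivity) (by exact_mod_cast hc.1)
      rw [h4, h5, Int.toNat_natCast]
  have h2 : ∑ c ∈ (range Q).filter (fun c : ℕ => (c : ℤ) ≡ e [ZMOD 3]),
      (A.filter fun a => ((a + v) % Q).toNat = c).card ≤ A.card := by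
    rw [Finset.sum_card_fiberwise_eq_card_filter]
    exact Finset.card_filter_le _ _
  have h3' : cnt (fun a => a ≡ e - v [ZMOD 3] ∧ P a) x X = A.card := cnt_eq _ _ _
  rw [h3']
  calc ∑ c ∈ (range Q).filter (fun c : ℕ => (c : ℤ) ≡ e [ZMOD 3]),
        (cnt (fun a => a ≡ (c : ℤ) - v [ZMOD Q] ∧ P a) x X : ℝ)
      ≤ ∑ c ∈ (range Q).filter (fun c : ℕ => (c : ℤ) ≡ e [ZMOD 3]),
        ((A.filter fun a => ((a + v) % Q).toNat = c).card : ℝ) :=
        Finset.sum_le_sum fun c hc => by exact_mod_cast h1 c hc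
    _ ≤ (A.card : ℝ) := by exact_mod_cast h2

theorem card_classes (Q : ℕ) (h3 : 3 ∣ Q) (e : ℤ) :
    ((range Q).filter (fun c : ℕ => (c : ℤ) ≡ e [ZMOD 3])).card = Q / 3 := by
  obtain ⟨m, rfl⟩ := h3
  rw [Nat.mul_div_cancel_left _ (by norm_num)]
  induction m with
  | zero => simp
  | succ m ih =>
    have h1 : range (3 * (m + 1)) = range (3 * m) ∪ {3 * m, 3 * m + 1, 3 * m + 2} := by
      ext c
      simp only [Finset.mem_range, Finset.mem_union, Finset.mem_insert, Finset.mem_singleton]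
      omega
    rw [h1, Finset.filter_union, Finset.card_union_of_disjoint, ih]
    · congr 1
      have he : e % 3 = 0 ∨ e % 3 = 1 ∨ e % 3 = 2 := by omega
      have h2 : ∀ c : ℕ, ((c : ℤ) ≡ e [ZMOD 3]) ↔ ((c : ℤ) % 3 = e % 3) := fun c => Iff.rfl
      simp only [h2]
      rcases he with he | he | he <;> rw [he]
      · rw [Finset.card_eq_one]
        refine ⟨3 * m, ?_⟩
        ext c
        simp only [Finset.mem_filter, Finset.mem_insert, Finset.mem_singleton]
        omega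
      · rw [Finset.card_eq_one]
        refine ⟨3 * m + 1, ?_⟩
        ext c
        simp only [Finset.mem_filter, Finset.mem_insert, Finset.mem_singleton]
        omega
      · rw [Finset.card_eq_one]
        refine ⟨3 * m + 2, ?_⟩
        ext c
        simp only [Finset.mem_filter, Finset.mem_insert, Finset.mem_singleton]
        omega
    · rw [Finset.disjoint_left]
      intro c hc hc'
      simp only [Finset.mem_filter, Finset.mem_range, Finset.mem_insert, Finset.mem_singleton] at hc hc'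
      omega

/-- all groups with classes `≡ e (mod 3)` are impossible as a next group -/
theorem avg (P : ℤ → Prop) (Q : ℕ) (hQ : 0 < Q) (h3 : 3 ∣ Q) (u : ℕ → ℤ) (r : ℕ) (hr : Ex P Q u r) (e : ℤ)
    (hno : ∀ c : ℕ, (c : ℤ) ≡ e [ZMOD 3] → ¬ Ex P Q (fun i => if i < r then u i else (c : ℤ)) (r + 1))
    (ε : ℝ) (hε : 0 < ε) :
    ∃ H : ℕ, ∀ (x : ℤ) (X : ℕ), 0 ≤ x → H ≤ X →
      (1 - ε) * (X / 3) ≤ ∑ i ∈ range r, (cnt (fun a => a ≡ e - u i [ZMOD 3] ∧ P a) x X : ℝ) := by
  classical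
  have h1 : ∀ c : ℕ, ∃ H : ℕ, (c : ℤ) ≡ e [ZMOD 3] → ∀ (x : ℤ) (X : ℕ), 0 ≤ x → H ≤ X →
      (1 - ε) * (X / Q) ≤ ∑ i ∈ range r, (cnt (fun a => a ≡ c - u i [ZMOD Q] ∧ P a) x X : ℝ) := by
    intro c
    by_cases hc : (c : ℤ) ≡ e [ZMOD 3]
    · obtain ⟨H, hH⟩ := dens_of_not P Q hQ u r hr c (hno c hc) ε hε
      exact ⟨H, fun _ => hH⟩
    · exact ⟨0, fun h => absurd h hc⟩
  choose H hH using h1
  refine ⟨∑ c ∈ range Q, H c, fun x X hx hX => ?_⟩
  set R := (range Q).filter (fun c : ℕ => (c : ℤ) ≡ e [ZMOD 3]) with hR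
  have h2 : ∀ c ∈ R, (1 - ε) * (X / Q) ≤
      ∑ i ∈ range r, (cnt (fun a => a ≡ c - u i [ZMOD Q] ∧ P a) x X : ℝ) := by
    intro c hc
    rw [hR, Finset.mem_filter] at hc
    refine hH c hc.2 x X hx (le_trans ?_ hX)
    exact Finset.single_le_sum (f := H) (fun _ _ => Nat.zero_le _) hc.1
  have h4 := Finset.sum_le_sum h2
  rw [Finset.sum_const, nsmul_eq_mul, hR, card_classes Q h3 e] at h4
  have h5 : (((Q / 3 : ℕ) : ℝ)) * ((1 - ε) * (X / Q)) = (1 - ε) * (X / 3) := by
    obtain ⟨m, rfl⟩ := h3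
    rw [Nat.mul_div_cancel_left _ (by norm_num)]
    have hm : (0 : ℝ) < m := by
      have : 0 < m := by omega
      exact_mod_cast this
    push_cast
    field_simp
  rw [h5] at h4
  refine h4.trans ?_
  rw [Finset.sum_comm]
  exact Finset.sum_le_sum fun i _ => cnt_classes P Q hQ h3 e (u i) x X

theorem cnt_three (P : ℤ → Prop) (x : ℤ) (X : ℕ) :
    cnt P x X = cnt (fun a => a ≡ 0 [ZMOD 3] ∧ P a) x X + cnt (fun a => a ≡ 1 [ZMOD 3] ∧ P a) x X +
      cnt (fun a => a ≡ 2 [ZMOD 3] ∧ P a) x X := by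
  classical
  rw [cnt_eq, cnt_eq, cnt_eq, cnt_eq]
  have h1 : (Ioc x (x + X)).filter P =
      ((Ioc x (x + X)).filter (fun a => a ≡ 0 [ZMOD 3] ∧ P a) ∪
        (Ioc x (x + X)).filter (fun a => a ≡ 1 [ZMOD 3] ∧ P a)) ∪
        (Ioc x (x + X)).filter (fun a => a ≡ 2 [ZMOD 3] ∧ P a) := by
    ext a
    simp only [Finset.mem_filter, Finset.mem_union]
    have h2 : a % 3 = 0 ∨ a % 3 = 1 ∨ a % 3 = 2 := by omega
    have e0 : (a ≡ 0 [ZMOD 3]) ↔ a % 3 = 0 := Iff.rfl
    have e1 : (a ≡ 1 [ZMOD 3]) ↔ a % 3 = 1 := Iff.rfl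
    have e2 : (a ≡ 2 [ZMOD 3]) ↔ a % 3 = 2 := Iff.rfl
    rw [e0, e1, e2]
    tauto
  rw [h1, Finset.card_union_of_disjoint, Finset.card_union_of_disjoint]
  · rw [Finset.disjoint_left]
    intro a ha ha'
    simp only [Finset.mem_filter] at ha ha'
    have h2 := ha.2.1.symm.trans ha'.2.1
    exact absurd h2 (by decide)
  · rw [Finset.disjoint_left]
    intro a ha ha'
    simp only [Finset.mem_filter, Finset.mem_union] at ha ha'
    rcases ha with ha | ha
    · have h2 := ha.2.1.symm.trans ha'.2.1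
      exact absurd h2 (by decide)
    · have h2 := ha.2.1.symm.trans ha'.2.1
      exact absurd h2 (by decide)

/-- **the density theorem on the line of indices** -/
theorem third (P : ℤ → Prop) (Q : ℕ) (hQ : 0 < Q) (h3 : 3 ∣ Q)
    (hno : ∀ u : ℕ → ℤ, (∃ e : ℤ, ∀ i < 4, ¬ u i ≡ e [ZMOD 3]) → ¬ Ex P Q u 4) (ε : ℝ) (hε : 0 < ε) :
    ∃ H : ℕ, ∀ (x : ℤ) (X : ℕ), 0 ≤ x → H ≤ X → (1 - ε) * (X / 3) ≤ (cnt P x X : ℝ) := by
  classical
  -- notation: the number of elements of `P` in a class modulo 3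
  let g : ℤ → ℤ → ℕ → ℝ := fun e x X => (cnt (fun a => a ≡ e [ZMOD 3] ∧ P a) x X : ℝ)
  have hg0 : ∀ e x X, 0 ≤ g e x X := fun e x X => Nat.cast_nonneg _
  have hsum : ∀ x X, (cnt P x X : ℝ) = g 0 x X + g 1 x X + g 2 x X := fun x X => by
    have := cnt_three P x X
    simp only [g]
    exact_mod_cast this
  have hgu : ∀ (e v : ℤ) (x : ℤ) (X : ℕ), v ≡ 0 [ZMOD 3] →
      (cnt (fun a => a ≡ e - v [ZMOD 3] ∧ P a) x X : ℝ) = g e x X := by
    intro e v x X hv
    simp only [g]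
    congr 1
    refine cnt_congr (fun a => ?_) x X
    have h1 : e - v ≡ e [ZMOD 3] := by simpa using (Int.ModEq.sub_left e hv)
    exact ⟨fun h => ⟨h.1.trans h1, h.2⟩, fun h => ⟨h.1.trans h1.symm, h.2⟩⟩
  -- at most three groups of class 0
  by_cases hE2 : ∃ u : ℕ → ℤ, (∀ i < 2, u i ≡ 0 [ZMOD 3]) ∧ Ex P Q u 2
  · by_cases hE3 : ∃ u : ℕ → ℤ, (∀ i < 3, u i ≡ 0 [ZMOD 3]) ∧ Ex P Q u 3
    · -- three groups
      obtain ⟨u, hu, hE⟩ := hE3
      have h1 : ∀ e : ℤ, (e = 0 ∨ e = 1 ∨ e = 2) → ∃ H : ℕ, ∀ (x : ℤ) (X : ℕ), 0 ≤ x → H ≤ X →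
          (1 - ε) * (X / 3) ≤ 3 * g e x X := by
        intro e he
        obtain ⟨H, hH⟩ := avg P Q hQ h3 u 3 hE e (fun c hc => hno _ (by
          -- a missing class
          obtain ⟨e', h0, h1⟩ : ∃ e' : ℤ, ¬ (0 : ℤ) ≡ e' [ZMOD 3] ∧ ¬ e ≡ e' [ZMOD 3] := by
            rcases he with rfl | rfl | rfl
            · exact ⟨1, by decide, by decide⟩
            · exact ⟨2, by decide, by decide⟩
            · exact ⟨1, by decide, by decide⟩
          refine ⟨e', fun i hi h => ?_⟩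
          by_cases hi3 : i < 3
          · simp only [hi3, if_true] at h
            exact h0 ((hu i hi3).symm.trans h)
          · simp only [hi3, if_false] at h
            exact h1 (hc.symm.trans h))) ε hε
        refine ⟨H, fun x X hx hX => (hH x X hx hX).trans ?_⟩
        rw [Finset.sum_range_succ, Finset.sum_range_succ, Finset.sum_range_one, hgu e _ x X (hu 0 (by norm_num)),
          hgu e _ x X (hu 1 (by norm_num)), hgu e _ x X (hu 2 (by norm_num))]
        linarith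
      obtain ⟨H0, hH0⟩ := h1 0 (Or.inl rfl)
      obtain ⟨H1, hH1⟩ := h1 1 (Or.inr (Or.inl rfl))
      obtain ⟨H2, hH2⟩ := h1 2 (Or.inr (Or.inr rfl))
      refine ⟨H0 + H1 + H2, fun x X hx hX => ?_⟩
      have e0 := hH0 x X hx (by omega)
      have e1 := hH1 x X hx (by omega)
      have e2 := hH2 x X hx (by omega)
      rw [hsum]
      linarith
    · -- exactly two groups of class 0
      obtain ⟨u, hu, hE⟩ := hE2
      have h1 : ∀ e : ℤ, (e = 1 ∨ e = 2) → ∃ H : ℕ, ∀ (x : ℤ) (X : ℕ), 0 ≤ x → H ≤ X →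
          (1 - ε) * (X / 3) ≤ 2 * g e x X + g 0 x X := by
        intro e he
        by_cases hc : ∃ c : ℕ, (c : ℤ) ≡ e [ZMOD 3] ∧ Ex P Q (fun i => if i < 2 then u i else (c : ℤ)) 3
        · obtain ⟨c, hc, hE'⟩ := hc
          obtain ⟨H, hH⟩ := avg P Q hQ h3 _ 3 hE' e (fun c' hc' => hno _ (by
            obtain ⟨e', h0, h1⟩ : ∃ e' : ℤ, ¬ (0 : ℤ) ≡ e' [ZMOD 3] ∧ ¬ e ≡ e' [ZMOD 3] := by
              rcases he with rfl | rfl
              · exact ⟨2, by decide, by decide⟩
              · exact ⟨1, by decide, by decide⟩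
            refine ⟨e', fun i hi h => ?_⟩
            by_cases hi3 : i < 3
            · by_cases hi2 : i < 2
              · simp only [hi3, hi2, if_true] at h
                exact h0 ((hu i hi2).symm.trans h)
              · simp only [hi3, hi2, if_true, if_false] at h
                exact h1 (hc.symm.trans h)
            · simp only [hi3, if_false] at h
              exact h1 (hc'.symm.trans h))) ε hε
          refine ⟨H, fun x X hx hX => (hH x X hx hX).trans ?_⟩
          rw [Finset.sum_range_succ, Finset.sum_range_succ, Finset.sum_range_one]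
          have a0 : (if (0 : ℕ) < 2 then u 0 else (c : ℤ)) = u 0 := if_pos (by norm_num)
          have a1 : (if (1 : ℕ) < 2 then u 1 else (c : ℤ)) = u 1 := if_pos (by norm_num)
          have a2 : (if (2 : ℕ) < 2 then u 2 else (c : ℤ)) = (c : ℤ) := if_neg (by norm_num)
          rw [a0, a1, a2, hgu e _ x X (hu 0 (by norm_num)), hgu e _ x X (hu 1 (by norm_num))]
          have h5 : (cnt (fun a => a ≡ e - (c : ℤ) [ZMOD 3] ∧ P a) x X : ℝ) = g 0 x X := by
            simp only [g]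
            congr 1
            refine cnt_congr (fun a => ?_) x X
            have h6 : e - (c : ℤ) ≡ 0 [ZMOD 3] := by
              have := Int.ModEq.sub_left e hc
              simpa using this
            exact ⟨fun h => ⟨h.1.trans h6, h.2⟩, fun h => ⟨h.1.trans h6.symm, h.2⟩⟩
          rw [h5]
          linarith
        · push Not at hc
          obtain ⟨H, hH⟩ := avg P Q hQ h3 u 2 hE e hc ε hε
          refine ⟨H, fun x X hx hX => (hH x X hx hX).trans ?_⟩
          rw [Finset.sum_range_succ, Finset.sum_range_one, hgu e _ x X (hu 0 (by norm_num)),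
            hgu e _ x X (hu 1 (by norm_num))]
          linarith [hg0 0 x X]
      obtain ⟨H1, hH1⟩ := h1 1 (Or.inl rfl)
      obtain ⟨H2, hH2⟩ := h1 2 (Or.inr rfl)
      refine ⟨H1 + H2, fun x X hx hX => ?_⟩
      have e1 := hH1 x X hx (by omega)
      have e2 := hH2 x X hx (by omega)
      rw [hsum]
      linarith
  · -- one group only
    push Not at hE2
    have hE1 := ex_one P Q hQ (fun _ => 0) le_rfl
    obtain ⟨H, hH⟩ := avg P Q hQ h3 _ 1 hE1 0 (fun c hc => by
      refine hE2 _ (fun i hi => ?_)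
      by_cases hi1 : i < 1
      · simp only [hi1, if_true]
        rfl
      · simp only [hi1, if_false]
        exact hc) ε hε
    refine ⟨H, fun x X hx hX => (hH x X hx hX).trans ?_⟩
    rw [Finset.sum_range_one, hgu 0 _ x X rfl, hsum]
    linarith [hg0 1 x X, hg0 2 x X]

end Pool.Agent.ItA
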